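import Pool.Agent.Q226.NI.Defs

set_option autoImplicit false

/-! Independent sets of a vertex set, and the decomposition of the 1-nearly independent sets. -/

namespace Pool.Agent.Q226.NI

open Finset
open Classical

variable {V : Type*} (G : SimpleGraph V)

/-- the independent subsets of `A` -/
noncomputable def ind (A : Finset V) : Finset (Finset V) :=
  A.powerset.filter (fun I => ∀ x ∈ I, ∀ y ∈ I, ¬ G.Adj x y)

noncomputable def ic (A : Finset V) : ℕ := (ind G A).card
noncomputable def is (A : Finset V) : ℕ := ∑ I ∈ ind G A, I.card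

theorem mem_ind {A I : Finset V} :
    I ∈ ind G A ↔ I ⊆ A ∧ ∀ x ∈ I, ∀ y ∈ I, ¬ G.Adj x y := by
  simp [ind]

theorem sum_ind_insert (A : Finset V) (v : V) (hv : v ∉ A) (f : Finset V → ℕ) :
    ∑ I ∈ ind G (insert v A), f I
      = ∑ I ∈ ind G A, f I + ∑ I ∈ ind G (A.filter (fun x => ¬ G.Adj v x)), f (insert v I) := by
  unfold ind
  rw [Finset.sum_filter, Finset.sum_powerset_insert hv, ← Finset.sum_filter, ← Finset.sum_filter]
  congr 1
  apply Finset.sum_congr _ (fun _ _ => rfl)
  ext I
  simp only [Finset.mem_filter, Finset.mem_powerset, Finset.mem_insert]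
  constructor
  · rintro ⟨h1, h2⟩
    refine ⟨fun x hx => ?_, fun x hx y hy => h2 x (Or.inr hx) y (Or.inr hy)⟩
    rw [Finset.mem_filter]
    exact ⟨h1 hx, h2 v (Or.inl rfl) x (Or.inr hx)⟩
  · rintro ⟨h1, h2⟩
    refine ⟨fun x hx => (Finset.mem_filter.1 (h1 hx)).1, ?_⟩
    rintro x (rfl | hx) y (rfl | hy)
    · exact G.loopless.irrefl _
    · exact (Finset.mem_filter.1 (h1 hy)).2
    · intro h
      exact (Finset.mem_filter.1 (h1 hx)).2 h.symm
    · exact h2 x hx y hy

theorem ic_insert (A : Finset V) (v : V) (hv : v ∉ A) :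
    ic G (insert v A) = ic G A + ic G (A.filter (fun x => ¬ G.Adj v x)) := by
  have := sum_ind_insert G A v hv (fun _ => 1)
  simpa [ic] using this

theorem is_insert (A : Finset V) (v : V) (hv : v ∉ A) :
    is G (insert v A) = is G A + (is G (A.filter (fun x => ¬ G.Adj v x))
      + ic G (A.filter (fun x => ¬ G.Adj v x))) := by
  unfold is
  rw [sum_ind_insert G A v hv (fun I => I.card)]
  congr 1
  have : ic G (A.filter (fun x => ¬ G.Adj v x))
      = ∑ I ∈ ind G (A.filter (fun x => ¬ G.Adj v x)), 1 := by simp [ic]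
  rw [this, ← Finset.sum_add_distrib]
  apply Finset.sum_congr rfl
  intro I hI
  rw [mem_ind] at hI
  rw [Finset.card_insert_of_notMem]
  intro h
  exact hv (Finset.mem_filter.1 (hI.1 h)).1

theorem ic_mono {A B : Finset V} (h : A ⊆ B) : ic G A ≤ ic G B := by
  apply Finset.card_le_card
  intro I hI
  rw [mem_ind] at hI ⊢
  exact ⟨hI.1.trans h, hI.2⟩

theorem ic_pos (A : Finset V) : 0 < ic G A := by
  apply Finset.card_pos.2
  exact ⟨∅, by simp [mem_ind]⟩

theorem half (m : ℕ) : ∀ A : Finset V, A.card = m → 2 * is G A ≤ A.card * ic G A := by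
  induction m using Nat.strong_induction_on with
  | _ m ih =>
    intro A hA
    rcases A.eq_empty_or_nonempty with rfl | ⟨v, hv⟩
    · have : is G (∅ : Finset V) = 0 := by simp [is, ind, Finset.filter_singleton]
      rw [this]; simp
    · obtain ⟨B, hB⟩ : ∃ B, B = A.erase v := ⟨_, rfl⟩
      have hvB : v ∉ B := by rw [hB]; simp
      have hAB : A = insert v B := by rw [hB, Finset.insert_erase hv]
      have hc : A.card = B.card + 1 := by rw [hAB, Finset.card_insert_of_notMem hvB]
      rw [hc, hAB, ic_insert G B v hvB, is_insert G B v hvB]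
      have h1 := ih B.card (by omega) B rfl
      have hsub : B.filter (fun x => ¬ G.Adj v x) ⊆ B := Finset.filter_subset _ _
      have hcl : (B.filter (fun x => ¬ G.Adj v x)).card ≤ B.card := Finset.card_le_card hsub
      have h2 := ih _ (by omega : (B.filter (fun x => ¬ G.Adj v x)).card < m) _ rfl
      have h3 := ic_mono G hsub
      have h4 : (B.filter (fun x => ¬ G.Adj v x)).card * ic G (B.filter (fun x => ¬ G.Adj v x))
          ≤ B.card * ic G (B.filter (fun x => ¬ G.Adj v x)) := Nat.mul_le_mul_right _ hcl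
      nlinarith

theorem edgeless (A : Finset V) (hA : ∀ x ∈ A, ∀ y ∈ A, ¬ G.Adj x y) :
    ic G A = 2 ^ A.card ∧ 2 * is G A = A.card * 2 ^ A.card := by
  induction A using Finset.induction_on with
  | empty => simp [is, ic, ind, Finset.filter_singleton]
  | insert v B hv ih =>
    have hB : B.filter (fun x => ¬ G.Adj v x) = B := by
      rw [Finset.filter_eq_self]
      intro x hx
      exact hA v (Finset.mem_insert_self _ _) x (Finset.mem_insert_of_mem hx)
    obtain ⟨h1, h2⟩ := ih (fun x hx y hy =>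
      hA x (Finset.mem_insert_of_mem hx) y (Finset.mem_insert_of_mem hy))
    rw [ic_insert G B v hv, is_insert G B v hv, hB, Finset.card_insert_of_notMem hv, h1]
    constructor
    · rw [pow_succ]; ring
    · rw [pow_succ]
      nlinarith

theorem third (m : ℕ) : ∀ A : Finset V, A.card = m → (∃ x ∈ A, ∃ y ∈ A, G.Adj x y) →
    6 * is G A + 2 * ic G A ≤ 3 * A.card * ic G A := by
  induction m using Nat.strong_induction_on with
  | _ m ih =>
    rintro A hA ⟨v, hv, y, hy, hvy⟩
    obtain ⟨B, hB⟩ : ∃ B, B = A.erase v := ⟨_, rfl⟩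
    have hvB : v ∉ B := by rw [hB]; simp
    have hAB : A = insert v B := by rw [hB, Finset.insert_erase hv]
    have hyB : y ∈ B := by rw [hB]; exact Finset.mem_erase.2 ⟨hvy.ne', hy⟩
    have hc : A.card = B.card + 1 := by rw [hAB, Finset.card_insert_of_notMem hvB]
    rw [hc, hAB, ic_insert G B v hvB, is_insert G B v hvB]
    obtain ⟨C, hC⟩ : ∃ C, C = B.filter (fun x => ¬ G.Adj v x) := ⟨_, rfl⟩
    rw [← hC]
    have hCsub : C ⊆ B.erase y := by
      intro x hx
      rw [hC, Finset.mem_filter] at hx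
      rw [Finset.mem_erase]
      refine ⟨?_, hx.1⟩
      rintro rfl
      exact hx.2 hvy
    have hcy : (B.erase y).card + 1 = B.card := Finset.card_erase_add_one hyB
    have hCc : C.card ≤ (B.erase y).card := Finset.card_le_card hCsub
    have hB1 := half G _ B rfl
    have hC1 := half G _ C rfl
    have hm := ic_mono G (hCsub.trans (Finset.erase_subset _ _))
    by_cases hlt : C.card + 2 ≤ B.card
    · have : (C.card + 2) * ic G C ≤ B.card * ic G C := Nat.mul_le_mul_right _ hlt
      nlinarith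
    · have hCe : C.card + 1 = B.card := by omega
      by_cases hE : ∃ x ∈ B, ∃ y ∈ B, G.Adj x y
      · have h1 := ih B.card (by omega) B rfl hE
        have h5 : (C.card + 1) * ic G C = B.card * ic G C := by rw [hCe]
        nlinarith
      · push Not at hE
        obtain ⟨h1, h2⟩ := edgeless G B hE
        have hE' : ∀ x ∈ C, ∀ y ∈ C, ¬ G.Adj x y := fun x hx y hy =>
          hE x ((Finset.erase_subset _ _) (hCsub hx)) y ((Finset.erase_subset _ _) (hCsub hy))
        obtain ⟨h3, h4⟩ := edgeless G C hE'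
        rw [h1, h3]
        have h5 : 2 ^ B.card = 2 * 2 ^ C.card := by rw [← hCe, pow_succ]; ring
        rw [h5] at h2 ⊢
        rw [← hCe] at h2 ⊢
        nlinarith

variable [Fintype V]

/-- the vertices different from and not adjacent to `u` and `v` -/
noncomputable def F (u v : V) : Finset V :=
  univ.filter (fun x => x ≠ u ∧ x ≠ v ∧ ¬ G.Adj x u ∧ ¬ G.Adj x v)

theorem mem_F {u v x : V} : x ∈ F G u v ↔ x ≠ u ∧ x ≠ v ∧ ¬ G.Adj x u ∧ ¬ G.Adj x v := by
  simp [F]

/-- the ordered pairs of adjacent vertices -/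
noncomputable def D : Finset (V × V) := univ.filter (fun p => G.Adj p.1 p.2)

theorem bij (u v : V) (h : G.Adj u v) (f : Finset V → ℕ) :
    ∑ I ∈ ind G (F G u v), f (insert u (insert v I))
      = ∑ S ∈ univ.filter (fun S : Finset V => Nearly G S ∧ u ∈ S ∧ v ∈ S), f S := by
  refine Finset.sum_bij' (fun I _ => insert u (insert v I)) (fun S _ => (S.erase u).erase v)
    ?_ ?_ ?_ ?_ ?_
  · intro I hI
    rw [mem_ind] at hI
    rw [Finset.mem_filter]
    refine ⟨Finset.mem_univ _, ?_, Finset.mem_insert_self _ _,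
      Finset.mem_insert_of_mem (Finset.mem_insert_self _ _)⟩
    rw [nearly_iff]
    refine ⟨u, v, Finset.mem_insert_self _ _,
      Finset.mem_insert_of_mem (Finset.mem_insert_self _ _), h, ?_⟩
    intro x hx y hy hxy
    rw [Finset.mem_insert, Finset.mem_insert] at hx hy
    rcases hx with rfl | rfl | hx
    · rcases hy with rfl | rfl | hy
      · exact absurd hxy (G.loopless.irrefl _)
      · left; exact ⟨rfl, rfl⟩
      · exact absurd hxy.symm ((mem_F G).1 (hI.1 hy)).2.2.1
    · rcases hy with rfl | rfl | hy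
      · right; exact ⟨rfl, rfl⟩
      · exact absurd hxy (G.loopless.irrefl _)
      · exact absurd hxy.symm ((mem_F G).1 (hI.1 hy)).2.2.2
    · rcases hy with rfl | rfl | hy
      · exact absurd hxy ((mem_F G).1 (hI.1 hx)).2.2.1
      · exact absurd hxy ((mem_F G).1 (hI.1 hx)).2.2.2
      · exact absurd hxy (hI.2 x hx y hy)
  · intro S hS
    rw [Finset.mem_filter] at hS
    obtain ⟨-, hN, hu, hv⟩ := hS
    rw [nearly_iff] at hN
    obtain ⟨a, b, ha, hb, hab, hall⟩ := hN
    have huv := hall u hu v hv h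
    rw [mem_ind]
    constructor
    · intro x hx
      rw [Finset.mem_erase, Finset.mem_erase] at hx
      rw [mem_F]
      refine ⟨hx.2.1, hx.1, ?_, ?_⟩
      · intro hxu
        rcases hall x hx.2.2 u hu hxu with ⟨h1, h2⟩ | ⟨h1, h2⟩ <;>
        rcases huv with ⟨h3, h4⟩ | ⟨h3, h4⟩
        · exact h.ne (by rw [h3]; rw [h3] at h2; rw [h2, h4])
        · exact hx.1 (by rw [h1, h4])
        · exact hx.1 (by rw [h1, h4])
        · exact h.ne (by rw [h3]; rw [h3] at h2; rw [h2, h4])
      · intro hxu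
        rcases hall x hx.2.2 v hv hxu with ⟨h1, h2⟩ | ⟨h1, h2⟩ <;>
        rcases huv with ⟨h3, h4⟩ | ⟨h3, h4⟩
        · exact hx.2.1 (by rw [h1, h3])
        · exact h.ne (by rw [h3, h2])
        · exact h.ne (by rw [h3, h2])
        · exact hx.2.1 (by rw [h1, h3])
    · intro x hx y hy hxy
      rw [Finset.mem_erase, Finset.mem_erase] at hx hy
      rcases hall x hx.2.2 y hy.2.2 hxy with ⟨h1, h2⟩ | ⟨h1, h2⟩ <;>
      rcases huv with ⟨h3, h4⟩ | ⟨h3, h4⟩
      · exact hx.2.1 (by rw [h1, h3])
      · exact hx.1 (by rw [h1, h4])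
      · exact hx.1 (by rw [h1, h4])
      · exact hx.2.1 (by rw [h1, h3])
  · intro I hI
    rw [mem_ind] at hI
    have h1 : u ∉ I := fun hu => ((mem_F G).1 (hI.1 hu)).1 rfl
    have h2 : v ∉ I := fun hv => ((mem_F G).1 (hI.1 hv)).2.1 rfl
    have h3 : u ∉ insert v I := by
      rw [Finset.mem_insert]
      rintro (h' | h')
      · exact h.ne h'
      · exact h1 h'
    show ((insert u (insert v I)).erase u).erase v = I
    rw [Finset.erase_insert h3, Finset.erase_insert h2]
  · intro S hS
    rw [Finset.mem_filter] at hS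
    obtain ⟨-, hN, hu, hv⟩ := hS
    show insert u (insert v ((S.erase u).erase v)) = S
    have : v ∈ S.erase u := Finset.mem_erase.2 ⟨h.ne', hv⟩
    rw [Finset.insert_erase this, Finset.insert_erase hu]
  · intro I hI
    rfl

theorem decomp (f : Finset V → ℕ) :
    ∑ p ∈ D G, ∑ I ∈ ind G (F G p.1 p.2), f (insert p.1 (insert p.2 I))
      = 2 * ∑ S ∈ univ.filter (fun S : Finset V => Nearly G S), f S := by
  have h1 : ∀ p ∈ D G, ∑ I ∈ ind G (F G p.1 p.2), f (insert p.1 (insert p.2 I))
      = ∑ S ∈ univ.filter (fun S : Finset V => Nearly G S),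
          if p.1 ∈ S ∧ p.2 ∈ S then f S else 0 := by
    intro p hp
    have hp' : G.Adj p.1 p.2 := by simpa [D] using hp
    rw [bij G p.1 p.2 hp' f, ← Finset.sum_filter, Finset.filter_filter]
  rw [Finset.sum_congr rfl h1, Finset.sum_comm, Finset.mul_sum]
  apply Finset.sum_congr rfl
  intro S hS
  rw [← Finset.sum_filter, Finset.sum_const, smul_eq_mul]
  congr 1
  rw [Finset.mem_filter, nearly_iff] at hS
  obtain ⟨-, u, v, hu, hv, huv, hall⟩ := hS
  have : (D G).filter (fun p => p.1 ∈ S ∧ p.2 ∈ S) = {(u, v), (v, u)} := by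
    ext ⟨x, y⟩
    simp only [D, Finset.mem_filter, Finset.mem_univ, true_and, Finset.mem_insert,
      Finset.mem_singleton, Prod.mk.injEq]
    constructor
    · rintro ⟨h1, h2, h3⟩
      exact hall x h2 y h3 h1
    · rintro (⟨rfl, rfl⟩ | ⟨rfl, rfl⟩)
      · exact ⟨huv, hu, hv⟩
      · exact ⟨huv.symm, hv, hu⟩
  rw [this, Finset.card_pair]
  intro h
  rw [Prod.mk.injEq] at h
  exact huv.ne h.1

theorem two_sigma1 : 2 * sigma1 G = ∑ p ∈ D G, ic G (F G p.1 p.2) := by
  have := decomp G (fun _ => 1)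
  simp only [Finset.sum_const, smul_eq_mul, mul_one] at this
  unfold sigma1
  convert this.symm using 2
  rfl

theorem two_S1 : 2 * S1 G = ∑ p ∈ D G, (2 * ic G (F G p.1 p.2) + is G (F G p.1 p.2)) := by
  have := decomp G (fun S => S.card)
  unfold S1
  rw [show 2 * ∑ S ∈ univ.filter (fun S : Finset V => Nearly G S), S.card = _ from this.symm]
  apply Finset.sum_congr rfl
  intro p hp
  have hp' : G.Adj p.1 p.2 := by simpa [D] using hp
  have : ic G (F G p.1 p.2) = ∑ I ∈ ind G (F G p.1 p.2), 1 := by simp [ic]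
  unfold is
  rw [this, Finset.mul_sum, ← Finset.sum_add_distrib]
  apply Finset.sum_congr rfl
  intro I hI
  rw [mem_ind] at hI
  have h1 : p.1 ∉ I := fun hu => ((mem_F G).1 (hI.1 hu)).1 rfl
  have h2 : p.2 ∉ I := fun hv => ((mem_F G).1 (hI.1 hv)).2.1 rfl
  have h3 : p.1 ∉ insert p.2 I := by
    rw [Finset.mem_insert]
    rintro (h' | h')
    · exact hp'.ne h'
    · exact h1 h'
  rw [Finset.card_insert_of_notMem h3, Finset.card_insert_of_notMem h2]
  ring

end Pool.Agent.Q226.NI
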