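import Mathlib

set_option autoImplicit false

/-! Brute force part: all increasing parent vectors, with a dynamic program. -/

namespace Pool.Agent.Q226.NI

open Finset

/-- `(a + b ε) + (c + d ε) δ` with `ε² = δ² = 0`. -/
structure W where
  a : ℕ
  b : ℕ
  c : ℕ
  d : ℕ

def W.add (x y : W) : W := ⟨x.a + y.a, x.b + y.b, x.c + y.c, x.d + y.d⟩

def W.mul (x y : W) : W :=
  ⟨x.a * y.a, x.a * y.b + x.b * y.a, x.a * y.c + x.c * y.a,
    x.a * y.d + x.b * y.c + x.c * y.b + x.d * y.a⟩

/-- multiplication by `δ` -/
def W.del (x : W) : W := ⟨0, 0, x.a, x.b⟩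

/-- the state of a vertex: not chosen, chosen -/
structure St where
  x0 : W
  x1 : W

/-- merge a child into its parent -/
def St.merge (c p : St) : St :=
  ⟨p.x0.mul (c.x0.add c.x1), p.x1.mul (c.x0.add c.x1.del)⟩

/-- merge `a` into each member of the list -/
def mods (a : St) : List St → List (List St)
  | [] => []
  | b :: L => (a.merge b :: L) :: (mods a L).map (fun M => b :: M)

/-- check all ways of merging -/
def chk (good : ℕ → ℕ → Bool) : ℕ → List St → Bool
  | 0, [] => true
  | 0, x :: _ => good (x.x0.add x.x1).c (x.x0.add x.x1).d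
  | _ + 1, [] => true
  | k + 1, a :: L => (mods a L).all (chk good k)

def st0 : St := ⟨⟨1, 0, 0, 0⟩, ⟨1, 1, 0, 0⟩⟩

def good (num den c d : ℕ) : Bool := Nat.ble (den * d) (num * c)

theorem chk6 : chk (good 3 1) 5 (List.replicate 6 st0) = true := by decide +kernel

theorem chk7 : chk (good 86 25) 6 (List.replicate 7 st0) = true := by decide +kernel

theorem chk8 : chk (good 171 43) 7 (List.replicate 8 st0) = true := by decide +kernel

theorem chk9 : chk (good 32 7) 8 (List.replicate 9 st0) = true := by decide +kernel

/-! ### the ring -/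

/-- the ring in which the counting is done -/
abbrev K := DualNumber (DualNumber ℕ)

def W.toK (x : W) : K := ((x.a, x.b), (x.c, x.d))

theorem toK_add (x y : W) : (x.add y).toK = x.toK + y.toK := rfl

theorem toK_mul (x y : W) : (x.mul y).toK = x.toK * y.toK := by
  obtain ⟨a, b, c, d⟩ := x
  obtain ⟨a', b', c', d'⟩ := y
  apply TrivSqZeroExt.ext
  · apply TrivSqZeroExt.ext
    · show a * a' = a * a'
      rfl
    · show a * b' + b * a' = a * b' + b * a'
      rfl
  · apply TrivSqZeroExt.ext
    · show a * c' + c * a' = a * c' + c * a'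
      rfl
    · show a * d' + b * c' + c * b' + d * a' = a * d' + b * c' + (c * b' + d * a')
      ring

/-- the element `δ` -/
def dl : K := ((0, 0), (1, 0))

/-- the element `1 + ε` -/
def z : K := ((1, 1), (0, 0))

theorem toK_del (x : W) : x.del.toK = dl * x.toK := by
  obtain ⟨a, b, c, d⟩ := x
  apply TrivSqZeroExt.ext
  · apply TrivSqZeroExt.ext
    · show 0 = 0 * a
      simp
    · show 0 = 0 * b + 0 * a
      simp
  · apply TrivSqZeroExt.ext
    · show a = 0 * c + 1 * a
      simp
    · show b = 0 * d + 0 * c + (1 * b + 0 * a)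
      simp

theorem one_eq : (1 : K) = ((1, 0), (0, 0)) := rfl

theorem dl_sq : dl * dl = 0 := rfl

theorem dl_pow (m : ℕ) : dl ^ (m + 2) = 0 := by
  rw [pow_add, pow_two, dl_sq, mul_zero]

theorem z_pow (m : ℕ) : z ^ m = (((1, m), (0, 0)) : K) := by
  induction m with
  | zero => rfl
  | succ m ih =>
    rw [pow_succ, ih]
    apply TrivSqZeroExt.ext
    · apply TrivSqZeroExt.ext
      · show 1 * 1 = 1
        rfl
      · show 1 * 1 + m * 1 = m + 1
        ring
    · apply TrivSqZeroExt.ext
      · show 1 * 0 + 0 * 1 = 0
        rfl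
      · show 1 * 0 + m * 0 + (0 * 1 + 0 * 1) = 0
        ring

theorem z_pow_mul_dl (m : ℕ) : z ^ m * dl = (((0, 0), (1, m)) : K) := by
  rw [z_pow]
  apply TrivSqZeroExt.ext
  · apply TrivSqZeroExt.ext
    · show 1 * 0 = 0
      rfl
    · show 1 * 0 + m * 0 = 0
      ring
  · apply TrivSqZeroExt.ext
    · show 1 * 1 + 0 * 0 = 1
      rfl
    · show 1 * 0 + m * 1 + (0 * 0 + 0 * 0) = m
      ring

/-- the coefficient of `δ` and of `ε δ` -/
def co1 (x : K) : ℕ := x.2.1
def co2 (x : K) : ℕ := x.2.2

theorem co1_add (x y : K) : co1 (x + y) = co1 x + co1 y := rfl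
theorem co2_add (x y : K) : co2 (x + y) = co2 x + co2 y := rfl

theorem co1_sum {ι : Type*} (s : Finset ι) (f : ι → K) :
    co1 (∑ i ∈ s, f i) = ∑ i ∈ s, co1 (f i) := by
  classical
  induction s using Finset.induction_on with
  | empty => rfl
  | insert a s ha ih => rw [Finset.sum_insert ha, Finset.sum_insert ha, co1_add, ih]

theorem co2_sum {ι : Type*} (s : Finset ι) (f : ι → K) :
    co2 (∑ i ∈ s, f i) = ∑ i ∈ s, co2 (f i) := by
  classical
  induction s using Finset.induction_on with
  | empty => rfl
  | insert a s ha ih => rw [Finset.sum_insert ha, Finset.sum_insert ha, co2_add, ih]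

theorem co1_mono (m e : ℕ) : co1 (z ^ m * dl ^ e) = if e = 1 then 1 else 0 := by
  rcases e with _ | _ | e
  · rw [pow_zero, mul_one, z_pow]; rfl
  · rw [zero_add, pow_one, z_pow_mul_dl]; rfl
  · rw [dl_pow, mul_zero]; rfl

theorem co2_mono (m e : ℕ) : co2 (z ^ m * dl ^ e) = if e = 1 then m else 0 := by
  rcases e with _ | _ | e
  · rw [pow_zero, mul_one, z_pow]; rfl
  · rw [zero_add, pow_one, z_pow_mul_dl]; rfl
  · rw [dl_pow, mul_zero]; rfl

/-! ### the sum over all subsets, with weights at the vertices -/

/-- weight of vertex `j` -/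
noncomputable def wt (w : ℕ → St) (X : Finset ℕ) (j : ℕ) : K :=
  if j ∈ X then (w j).x1.toK else (w j).x0.toK

/-- weight of the edge from `j + 1` to its parent -/
noncomputable def ed (p : ℕ → ℕ) (X : Finset ℕ) (j : ℕ) : K :=
  if j + 1 ∈ X ∧ p (j + 1) ∈ X then dl else 1

/-- the sum -/
noncomputable def Z (k : ℕ) (w : ℕ → St) (p : ℕ → ℕ) : K :=
  ∑ X ∈ (range (k + 1)).powerset, (∏ j ∈ range (k + 1), wt w X j) * ∏ j ∈ range k, ed p X j

theorem Z_zero (w : ℕ → St) (p : ℕ → ℕ) : Z 0 w p = ((w 0).x0.add (w 0).x1).toK := by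
  rw [toK_add]
  unfold Z
  rw [zero_add, Finset.range_one]
  have hps : ({0} : Finset ℕ).powerset = {∅, {0}} := by decide
  rw [hps]
  rw [Finset.sum_pair (by simp)]
  simp [wt]

theorem Z_succ (k : ℕ) (w : ℕ → St) (p : ℕ → ℕ) (hp : p (k + 1) ≤ k)
    (hp' : ∀ j < k, p (j + 1) ≤ j) :
    Z (k + 1) w p =
      Z k (fun i => if i = p (k + 1) then (w (k + 1)).merge (w i) else w i) p := by
  unfold Z
  rw [show range (k + 1 + 1) = insert (k + 1) (range (k + 1)) from Finset.range_add_one]
  rw [Finset.sum_powerset_insert (by simp), ← Finset.sum_add_distrib]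
  apply Finset.sum_congr rfl
  intro X hX
  rw [Finset.mem_powerset] at hX
  have hk : k + 1 ∉ X := fun h => by simpa using hX h
  have hk' : k + 1 ∉ range (k + 1) := by simp
  rw [Finset.prod_insert hk', Finset.prod_insert hk']
  have e1 : ∀ j ∈ range (k + 1), wt w (insert (k + 1) X) j = wt w X j := by
    intro j hj
    have : j ≠ k + 1 := by
      have := Finset.mem_range.1 hj
      omega
    simp [wt, Finset.mem_insert, this]
  rw [Finset.prod_congr rfl e1]
  rw [Finset.prod_range_succ (fun j => ed p X j), Finset.prod_range_succ (fun j => ed p _ j)]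
  have e2 : ∀ j ∈ range k, ed p (insert (k + 1) X) j = ed p X j := by
    intro j hj
    have h1 := Finset.mem_range.1 hj
    have h2 : j + 1 ≠ k + 1 := by omega
    have h3 : p (j + 1) ≠ k + 1 := by
      have := hp' j h1
      omega
    simp only [ed, Finset.mem_insert, h2, h3, false_or]
  rw [Finset.prod_congr rfl e2]
  have hpm : p (k + 1) ∈ range (k + 1) := by
    rw [Finset.mem_range]; omega
  have hpk : p (k + 1) ≠ k + 1 := by omega
  have e3 : ∀ w' : ℕ → St, ∏ j ∈ range (k + 1), wt w' X j
      = wt w' X (p (k + 1)) * ∏ j ∈ (range (k + 1)).erase (p (k + 1)), wt w' X j := by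
    intro w'
    rw [Finset.mul_prod_erase _ _ hpm]
  rw [e3 w, e3 (fun i => if i = p (k + 1) then (w (k + 1)).merge (w i) else w i)]
  have e4 : ∀ j ∈ (range (k + 1)).erase (p (k + 1)),
      wt (fun i => if i = p (k + 1) then (w (k + 1)).merge (w i) else w i) X j = wt w X j := by
    intro j hj
    have := Finset.ne_of_mem_erase hj
    simp [wt, this]
  rw [Finset.prod_congr rfl e4]
  generalize (∏ j ∈ (range (k + 1)).erase (p (k + 1)), wt w X j) = P
  generalize (∏ j ∈ range k, ed p X j) = E
  have f1 : wt w X (k + 1) = (w (k + 1)).x0.toK := by simp [wt, hk]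
  have f2 : wt w (insert (k + 1) X) (k + 1) = (w (k + 1)).x1.toK := by simp [wt]
  have f3 : ed p X k = 1 := by simp [ed, hk]
  rw [f1, f2, f3]
  by_cases h : p (k + 1) ∈ X
  · have f4 : ed p (insert (k + 1) X) k = dl := by simp [ed, h]
    have f5 : wt (fun i => if i = p (k + 1) then (w (k + 1)).merge (w i) else w i) X (p (k + 1))
        = wt w X (p (k + 1)) * ((w (k + 1)).x0.toK + dl * (w (k + 1)).x1.toK) := by
      simp only [wt, h, if_true, St.merge, toK_mul, toK_add, toK_del]
    rw [f4, f5]
    ring
  · have f4 : ed p (insert (k + 1) X) k = 1 := by simp [ed, h, hpk]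
    have f5 : wt (fun i => if i = p (k + 1) then (w (k + 1)).merge (w i) else w i) X (p (k + 1))
        = wt w X (p (k + 1)) * ((w (k + 1)).x0.toK + (w (k + 1)).x1.toK) := by
      simp only [wt, h, if_true, if_false, St.merge, toK_mul, toK_add]
    rw [f4, f5]
    ring

/-! ### lists of states -/

/-- the head of the list is the state of the last vertex -/
def wf : List St → ℕ → St
  | [], _ => st0
  | a :: L, j => if j = L.length then a else wf L j

theorem mods_spec (a : St) (L : List St) : ∀ j < L.length, ∃ M ∈ mods a L,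
    M.length = L.length ∧
      ∀ i, wf M i = if i = j then a.merge (wf L i) else wf L i := by
  induction L with
  | nil => intro j hj; simp at hj
  | cons b L ih =>
    intro j hj
    by_cases h : j = L.length
    · subst h
      refine ⟨a.merge b :: L, by simp [mods], by simp, ?_⟩
      intro i
      by_cases hi : i = L.length
      · simp [wf, hi]
      · simp [wf, hi]
    · have hj' : j < L.length := by
        simp at hj
        omega
      obtain ⟨M, hM, hl, hw⟩ := ih j hj'
      refine ⟨b :: M, ?_, by simp [hl], ?_⟩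
      · simp only [mods, List.mem_cons, List.mem_map]
        right
        exact ⟨M, hM, rfl⟩
      · intro i
        by_cases hi : i = L.length
        · have : i ≠ j := by omega
          simp only [wf, hl, hi, if_true]
          rw [if_neg (by omega)]
        · simp only [wf, hl, hi, if_false]
          exact hw i

theorem chk_spec (g : ℕ → ℕ → Bool) (k : ℕ) : ∀ L : List St, L.length = k + 1 →
    chk g k L = true → ∀ p : ℕ → ℕ, (∀ j < k, p (j + 1) ≤ j) →
      g (co1 (Z k (wf L) p)) (co2 (Z k (wf L) p)) = true := by
  induction k with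
  | zero =>
    intro L hL hc p _
    match L, hL, hc with
    | [x], _, hc =>
      rw [Z_zero]
      exact hc
  | succ k ih =>
    intro L hL hc p hp
    match L, hL, hc with
    | a :: L, hL, hc =>
      have hL' : L.length = k + 1 := by simpa using hL
      have hpk : p (k + 1) ≤ k := hp k (Nat.lt_succ_self k)
      have hp' : ∀ j < k, p (j + 1) ≤ j := fun j hj => hp j (by omega)
      obtain ⟨M, hM, hl, hw⟩ := mods_spec a L (p (k + 1)) (by omega)
      rw [Z_succ k _ p hpk hp']
      have : (fun i => if i = p (k + 1) then (wf (a :: L) (k + 1)).merge (wf (a :: L) i)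
          else wf (a :: L) i) = fun i => if i = k + 1 then a else wf M i := by
        funext i
        have h1 : wf (a :: L) (k + 1) = a := by simp [wf, hL']
        rw [h1]
        by_cases hi : i = k + 1
        · have : i ≠ p (k + 1) := by omega
          simp [wf, hL', hi]
          intro h
          omega
        · rw [if_neg hi, hw i]
          have : wf (a :: L) i = wf L i := by simp [wf, hL', hi]
          rw [this]
      rw [this]
      have hZ : Z k (fun i => if i = k + 1 then a else wf M i) p = Z k (wf M) p := by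
        unfold Z
        apply Finset.sum_congr rfl
        intro X _
        congr 1
        apply Finset.prod_congr rfl
        intro j hj
        have := Finset.mem_range.1 hj
        have : j ≠ k + 1 := by omega
        simp [wt, this]
      rw [hZ]
      refine ih M (by omega) ?_ p hp'
      simp only [chk, List.all_eq_true] at hc
      exact hc M hM

theorem wf_replicate (n : ℕ) (j : ℕ) : wf (List.replicate n st0) j = st0 := by
  induction n with
  | zero => rfl
  | succ n ih =>
    rw [List.replicate_succ]
    simp only [wf]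
    split
    · rfl
    · exact ih

/-- the number of indices `j + 1 ≤ k` which are in `X` together with their parent -/
def ne (k : ℕ) (p : ℕ → ℕ) (X : Finset ℕ) : ℕ :=
  ((range k).filter (fun j => j + 1 ∈ X ∧ p (j + 1) ∈ X)).card

theorem term_eq (k : ℕ) (p : ℕ → ℕ) (X : Finset ℕ) (hX : X ⊆ range (k + 1)) :
    (∏ j ∈ range (k + 1), wt (fun _ => st0) X j) * ∏ j ∈ range k, ed p X j
      = z ^ X.card * dl ^ (ne k p X) := by
  congr 1
  · have : ∀ j ∈ range (k + 1), wt (fun _ => st0) X j = if j ∈ X then z else 1 := by
      intro j _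
      simp only [wt]
      rfl
    rw [Finset.prod_congr rfl this, Finset.prod_ite, Finset.prod_const, Finset.prod_const_one,
      mul_one, Finset.filter_mem_eq_inter, Finset.inter_eq_right.2 hX]
  · unfold ne ed
    rw [Finset.prod_ite, Finset.prod_const, Finset.prod_const_one, mul_one]

/-- The result of the computation: for each increasing parent vector. -/
theorem brute (num den k : ℕ) (h : chk (good num den) k (List.replicate (k + 1) st0) = true)
    (p : ℕ → ℕ) (hp : ∀ j < k, p (j + 1) ≤ j) :
    den * (∑ X ∈ (range (k + 1)).powerset.filter (fun X => ne k p X = 1), X.card)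
      ≤ num * ((range (k + 1)).powerset.filter (fun X => ne k p X = 1)).card := by
  have h1 := chk_spec (good num den) k (List.replicate (k + 1) st0) (by simp) h p hp
  have h2 : wf (List.replicate (k + 1) st0) = fun _ => st0 := funext fun j => wf_replicate _ j
  rw [h2] at h1
  have h3 : Z k (fun _ => st0) p
      = ∑ X ∈ (range (k + 1)).powerset, z ^ X.card * dl ^ (ne k p X) := by
    unfold Z
    apply Finset.sum_congr rfl
    intro X hX
    exact term_eq k p X (Finset.mem_powerset.1 hX)
  rw [h3, co1_sum, co2_sum] at h1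
  simp only [co1_mono, co2_mono] at h1
  unfold good at h1
  rw [Nat.ble_eq] at h1
  rw [← Finset.sum_filter, ← Finset.sum_filter, Finset.sum_const, smul_eq_mul, mul_one] at h1
  exact h1

end Pool.Agent.Q226.NI
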