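import Mathlib

set_option autoImplicit false

/-! Definitions for 1-nearly independent sets. -/

namespace Pool.Agent.Q226.NI

open Finset

/-- `S` is 1-nearly independent: the subgraph of `G` induced by `S` has exactly one edge. -/
def Nearly {V : Type*} (G : SimpleGraph V) (S : Finset V) : Prop :=
  (G.induce (S : Set V)).edgeSet.ncard = 1

open Classical in
/-- The number of 1-nearly independent sets. -/
noncomputable def sigma1 {V : Type*} [Fintype V] (G : SimpleGraph V) : ℕ :=
  (univ.filter (fun S : Finset V => Nearly G S)).card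

open Classical in
/-- The sum of the cardinalities of the 1-nearly independent sets. -/
noncomputable def S1 {V : Type*} [Fintype V] (G : SimpleGraph V) : ℕ :=
  ∑ S ∈ univ.filter (fun S : Finset V => Nearly G S), S.card

/-- The average cardinality of a 1-nearly independent set. -/
noncomputable def av1 {V : Type*} [Fintype V] (G : SimpleGraph V) : ℚ :=
  (S1 G : ℚ) / (sigma1 G : ℚ)

/-- The tree `R_n`: the vertex `0` is joined to the vertices `1, …, n - 2`, and the vertex `n - 2` is
joined to the vertex `n - 1`. -/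
def R (n : ℕ) : SimpleGraph (Fin n) :=
  SimpleGraph.fromRel (fun a b =>
    ((a : ℕ) = 0 ∧ (b : ℕ) + 2 ≤ n) ∨ ((a : ℕ) + 2 = n ∧ (b : ℕ) + 1 = n))

/-- `Nearly` in terms of pairs. -/
theorem nearly_iff {V : Type*} (G : SimpleGraph V) (S : Finset V) :
    Nearly G S ↔ ∃ u v, u ∈ S ∧ v ∈ S ∧ G.Adj u v ∧
      ∀ x ∈ S, ∀ y ∈ S, G.Adj x y → (x = u ∧ y = v) ∨ (x = v ∧ y = u) := by
  unfold Nearly
  rw [Set.ncard_eq_one]
  constructor
  · rintro ⟨e, he⟩
    induction e using Sym2.ind with
    | _ a b =>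
      have hab : s(a, b) ∈ (G.induce (S : Set V)).edgeSet := by rw [he]; exact rfl
      rw [SimpleGraph.mem_edgeSet] at hab
      refine ⟨a, b, a.2, b.2, hab, ?_⟩
      intro x hx y hy hxy
      have : s((⟨x, hx⟩ : (S : Set V)), ⟨y, hy⟩) ∈ (G.induce (S : Set V)).edgeSet := by
        rw [SimpleGraph.mem_edgeSet]
        exact hxy
      rw [he, Set.mem_singleton_iff, Sym2.eq_iff] at this
      rcases this with ⟨h1, h2⟩ | ⟨h1, h2⟩
      · left; exact ⟨congrArg Subtype.val h1, congrArg Subtype.val h2⟩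
      · right; exact ⟨congrArg Subtype.val h1, congrArg Subtype.val h2⟩
  · rintro ⟨u, v, hu, hv, huv, h⟩
    refine ⟨s((⟨u, hu⟩ : (S : Set V)), ⟨v, hv⟩), ?_⟩
    ext e
    induction e using Sym2.ind with
    | _ a b =>
      rw [SimpleGraph.mem_edgeSet, Set.mem_singleton_iff, Sym2.eq_iff]
      constructor
      · intro hab
        rcases h a a.2 b b.2 hab with ⟨h1, h2⟩ | ⟨h1, h2⟩
        · left; exact ⟨Subtype.ext h1, Subtype.ext h2⟩
        · right; exact ⟨Subtype.ext h1, Subtype.ext h2⟩
      · rintro (⟨rfl, rfl⟩ | ⟨rfl, rfl⟩)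
        · exact huv
        · exact huv.symm

end Pool.Agent.Q226.NI
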