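import Pool.Agent.Q226.NI.Defs
import Pool.Agent.Q226.NI.Brute

set_option autoImplicit false

/-! Every tree comes from an increasing parent vector. -/

namespace Pool.Agent.Q226.NI

open Finset
open Classical

theorem order (k : ℕ) : ∀ (V : Type) [Fintype V] (T : SimpleGraph V), T.IsTree →
    Fintype.card V = k + 1 → ∃ (e : ℕ → V) (p : ℕ → ℕ), (∀ j < k, p (j + 1) ≤ j) ∧
      (∀ i < k + 1, ∀ j < k + 1, e i = e j → i = j) ∧ (∀ v, ∃ i < k + 1, e i = v) ∧
      (∀ i < k + 1, ∀ j < k + 1, T.Adj (e i) (e j) ↔ (0 < j ∧ i = p j) ∨ (0 < i ∧ j = p i)) := by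
  induction k with
  | zero =>
    intro V _ T hT hc
    obtain ⟨v, hv⟩ := Fintype.card_eq_one_iff.1 hc
    refine ⟨fun _ => v, fun _ => 0, by simp, ?_, ?_, ?_⟩
    · intro i hi j hj _
      omega
    · intro w
      exact ⟨0, by omega, (hv w).symm⟩
    · intro i hi j hj
      have h1 : i = 0 := by omega
      have h2 : j = 0 := by omega
      subst h1; subst h2
      simp
  | succ k ih =>
    intro V _ T hT hc
    have : Nontrivial V := by
      rw [← Fintype.one_lt_card_iff_nontrivial]
      omega
    obtain ⟨v, hv⟩ := hT.exists_vert_degree_one_of_nontrivial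
    obtain ⟨w, hvw, hw⟩ := SimpleGraph.degree_eq_one_iff_existsUnique_adj.mp hv
    have hT' : (T.induce ({v}ᶜ : Set V)).IsTree :=
      ⟨hT.1.induce_compl_singleton_of_degree_eq_one hv, hT.2.induce _⟩
    have hc' : Fintype.card ({v}ᶜ : Set V) = k + 1 := by
      rw [Fintype.card_compl_set, hc]
      simp
    obtain ⟨e, p, h1, h2, h3, h4⟩ := ih _ _ hT' hc'
    obtain ⟨a, ha, haw⟩ := h3 ⟨w, by simpa using hvw.ne'⟩
    refine ⟨fun i => if i < k + 1 then (e i : V) else v,
      fun i => if i < k + 1 then p i else a, ?_, ?_, ?_, ?_⟩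
    · intro j hj
      by_cases hjk : j + 1 < k + 1
      · simp only [hjk, if_true]
        exact h1 j (by omega)
      · simp only [hjk, if_false]
        omega
    · intro i hi j hj hij
      by_cases hik : i < k + 1 <;> by_cases hjk : j < k + 1
      · simp only [hik, hjk, if_true] at hij
        exact h2 i hik j hjk (Subtype.ext hij)
      · simp only [hik, hjk, if_true, if_false] at hij
        exact absurd hij (e i).2
      · simp only [hik, hjk, if_true, if_false] at hij
        exact absurd hij.symm (e j).2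
      · omega
    · intro x
      by_cases hx : x = v
      · exact ⟨k + 1, by omega, by simp [hx]⟩
      · obtain ⟨i, hi, hix⟩ := h3 ⟨x, hx⟩
        exact ⟨i, by omega, by simp [hi, hix]⟩
    · intro i hi j hj
      by_cases hik : i < k + 1 <;> by_cases hjk : j < k + 1
      · simp only [hik, hjk, if_true]
        exact h4 i hik j hjk
      · simp only [hik, hjk, if_true, if_false]
        have hj' : j = k + 1 := by omega
        constructor
        · intro h
          left
          refine ⟨by omega, ?_⟩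
          have : (e i : V) = w := hw _ h.symm
          apply h2 i hik a ha
          rw [haw]
          exact Subtype.ext this
        · rintro (⟨-, h⟩ | ⟨h, h'⟩)
          · rw [h, haw]
            exact hvw.symm
          · exfalso
            obtain ⟨i', rfl⟩ : ∃ i', i = i' + 1 := ⟨i - 1, by omega⟩
            have := h1 i' (by omega)
            omega
      · simp only [hik, hjk, if_true, if_false]
        have hi' : i = k + 1 := by omega
        constructor
        · intro h
          right
          refine ⟨by omega, ?_⟩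
          have : (e j : V) = w := hw _ h
          apply h2 j hjk a ha
          rw [haw]
          exact Subtype.ext this
        · rintro (⟨h, h'⟩ | ⟨-, h⟩)
          · exfalso
            obtain ⟨j', rfl⟩ : ∃ j', j = j' + 1 := ⟨j - 1, by omega⟩
            have := h1 j' (by omega)
            omega
          · rw [h, haw]
            exact hvw
      · simp only [hik, hjk, if_false]
        have h5 : i = k + 1 := by omega
        have h6 : j = k + 1 := by omega
        constructor
        · intro h
          exact absurd h (T.loopless.irrefl _)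
        · rintro (⟨-, h⟩ | ⟨-, h⟩) <;> omega

/-- the indices of the members of `S` -/
noncomputable def idx {V : Type} (k : ℕ) (e : ℕ → V) (S : Finset V) : Finset ℕ :=
  (range (k + 1)).filter (fun i => e i ∈ S)

section
variable {V : Type} [Fintype V] (T : SimpleGraph V) (k : ℕ) (e : ℕ → V) (p : ℕ → ℕ)
  (h1 : ∀ j < k, p (j + 1) ≤ j)
  (h2 : ∀ i < k + 1, ∀ j < k + 1, e i = e j → i = j) (h3 : ∀ v, ∃ i < k + 1, e i = v)
  (h4 : ∀ i < k + 1, ∀ j < k + 1,
    T.Adj (e i) (e j) ↔ (0 < j ∧ i = p j) ∨ (0 < i ∧ j = p i))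

include h1 h2 h3 h4 in
theorem nearly_idx (S : Finset V) : Nearly T S ↔ ne k p (idx k e S) = 1 := by
  have hm : ∀ i, i ∈ idx k e S ↔ i < k + 1 ∧ e i ∈ S := by
    intro i
    simp [idx]
  rw [nearly_iff]
  unfold ne
  rw [Finset.card_eq_one]
  constructor
  · rintro ⟨u, v, hu, hv, huv, hall⟩
    -- without loss of generality `u` is the parent of `v`
    have key : ∀ u v, u ∈ S → v ∈ S → T.Adj u v →
        (∀ x ∈ S, ∀ y ∈ S, T.Adj x y → (x = u ∧ y = v) ∨ (x = v ∧ y = u)) →
        ∀ a b, a < k + 1 → b < k + 1 → e a = u → e b = v → 0 < b → a = p b →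
        ∃ j, (range k).filter (fun j => j + 1 ∈ idx k e S ∧ p (j + 1) ∈ idx k e S) = {j} := by
      intro u v hu hv huv hall a b ha hb hau hbv hb0 hab
      obtain ⟨j, rfl⟩ : ∃ j, b = j + 1 := ⟨b - 1, by omega⟩
      refine ⟨j, ?_⟩
      ext i
      rw [Finset.mem_filter, Finset.mem_singleton, Finset.mem_range, hm, hm]
      constructor
      · rintro ⟨hi, ⟨hi1, hi2⟩, hi3, hi4⟩
        have hadj : T.Adj (e (p (i + 1))) (e (i + 1)) :=
          (h4 _ hi3 _ hi1).2 (Or.inl ⟨by omega, rfl⟩)
        rcases hall _ hi4 _ hi2 hadj with ⟨h5, h6⟩ | ⟨h5, h6⟩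
        · rw [← hbv] at h6
          have := h2 _ hi1 _ hb h6
          omega
        · rw [← hau] at h6
          rw [← hbv] at h5
          have h7 := h2 _ hi1 _ ha h6
          have h8 := h2 _ hi3 _ hb h5
          have h9 := h1 i hi
          have h10 := h1 j (by omega)
          omega
      · rintro rfl
        refine ⟨by omega, ⟨hb, by rw [hbv]; exact hv⟩, ?_, ?_⟩
        · rw [← hab]; exact ha
        · rw [← hab, hau]; exact hu
    obtain ⟨a, ha, hau⟩ := h3 u
    obtain ⟨b, hb, hbv⟩ := h3 v
    have hadj := huv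
    rw [← hau, ← hbv, h4 a ha b hb] at hadj
    rcases hadj with ⟨h5, h6⟩ | ⟨h5, h6⟩
    · exact key u v hu hv huv hall a b ha hb hau hbv h5 h6
    · exact key v u hv hu huv.symm (fun x hx y hy hxy => (hall x hx y hy hxy).symm)
        b a hb ha hbv hau h5 h6
  · rintro ⟨j, hj⟩
    have hjm : j ∈ (range k).filter (fun j => j + 1 ∈ idx k e S ∧ p (j + 1) ∈ idx k e S) := by
      rw [hj]; exact Finset.mem_singleton_self j
    rw [Finset.mem_filter, Finset.mem_range, hm, hm] at hjm
    obtain ⟨hjk, ⟨hj1, hj2⟩, hj3, hj4⟩ := hjm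
    refine ⟨e (p (j + 1)), e (j + 1), hj4, hj2, (h4 _ hj3 _ hj1).2 (Or.inl ⟨by omega, rfl⟩), ?_⟩
    have key : ∀ a b, a < k + 1 → b < k + 1 → e a ∈ S → e b ∈ S → 0 < b → a = p b →
        a = p (j + 1) ∧ b = j + 1 := by
      intro a b ha hb haS hbS hb0 hab
      obtain ⟨i, rfl⟩ : ∃ i, b = i + 1 := ⟨b - 1, by omega⟩
      have : i ∈ (range k).filter (fun j => j + 1 ∈ idx k e S ∧ p (j + 1) ∈ idx k e S) := by
        rw [Finset.mem_filter, Finset.mem_range, hm, hm]
        exact ⟨by omega, ⟨hb, hbS⟩, by rw [← hab]; exact ha, by rw [← hab]; exact haS⟩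
      rw [hj, Finset.mem_singleton] at this
      subst this
      exact ⟨hab, rfl⟩
    intro x hx y hy hxy
    obtain ⟨a, ha, rfl⟩ := h3 x
    obtain ⟨b, hb, rfl⟩ := h3 y
    rw [h4 a ha b hb] at hxy
    rcases hxy with ⟨h5, h6⟩ | ⟨h5, h6⟩
    · obtain ⟨h7, h8⟩ := key a b ha hb hx hy h5 h6
      left; rw [h7, h8]; exact ⟨rfl, rfl⟩
    · obtain ⟨h7, h8⟩ := key b a hb ha hy hx h5 h6
      right; rw [h7, h8]; exact ⟨rfl, rfl⟩

include h1 h2 h3 h4 in
theorem sum_idx (f : ℕ → ℕ) :
    ∑ S ∈ univ.filter (fun S : Finset V => Nearly T S), f S.card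
      = ∑ X ∈ (range (k + 1)).powerset.filter (fun X => ne k p X = 1), f X.card := by
  have hcard : ∀ S : Finset V, (idx k e S).image e = S := by
    intro S
    ext x
    simp only [idx, Finset.mem_image, Finset.mem_filter, Finset.mem_range]
    constructor
    · rintro ⟨i, ⟨_, hi⟩, rfl⟩
      exact hi
    · intro hx
      obtain ⟨i, hi, rfl⟩ := h3 x
      exact ⟨i, ⟨hi, hx⟩, rfl⟩
  have hidx : ∀ X : Finset ℕ, X ⊆ range (k + 1) → idx k e (X.image e) = X := by
    intro X hX
    ext i
    simp only [idx, Finset.mem_image, Finset.mem_filter, Finset.mem_range]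
    constructor
    · rintro ⟨hi, j, hj, hij⟩
      rw [← h2 j (Finset.mem_range.1 (hX hj)) i hi hij]
      exact hj
    · intro hi
      exact ⟨Finset.mem_range.1 (hX hi), i, hi, rfl⟩
  refine Finset.sum_bij' (fun S _ => idx k e S) (fun X _ => X.image e) ?_ ?_ ?_ ?_ ?_
  · intro S hS
    rw [Finset.mem_filter] at hS
    rw [Finset.mem_filter, Finset.mem_powerset]
    exact ⟨Finset.filter_subset _ _, (nearly_idx T k e p h1 h2 h3 h4 S).1 hS.2⟩
  · intro X hX
    rw [Finset.mem_filter, Finset.mem_powerset] at hX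
    rw [Finset.mem_filter]
    refine ⟨Finset.mem_univ _, ?_⟩
    rw [nearly_idx T k e p h1 h2 h3 h4, hidx X hX.1]
    exact hX.2
  · intro S _
    exact hcard S
  · intro X hX
    rw [Finset.mem_filter, Finset.mem_powerset] at hX
    exact hidx X hX.1
  · intro S _
    congr 1
    conv_lhs => rw [← hcard S]
    apply Finset.card_image_of_injOn
    intro i hi j hj hij
    have hi' : i ∈ idx k e S := hi
    have hj' : j ∈ idx k e S := hj
    simp only [idx, Finset.mem_filter, Finset.mem_range] at hi' hj'
    exact h2 i hi'.1 j hj'.1 hij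
end

/-- the result of the computation for all trees with `k + 1` vertices -/
theorem tree_brute (num den k : ℕ) (h : chk (good num den) k (List.replicate (k + 1) st0) = true)
    (V : Type) [Fintype V] (T : SimpleGraph V) (hT : T.IsTree) (hc : Fintype.card V = k + 1) :
    den * S1 T ≤ num * sigma1 T := by
  obtain ⟨e, p, h1, h2, h3, h4⟩ := order k V T hT hc
  have := brute num den k h p h1
  have hS : S1 T = ∑ X ∈ (range (k + 1)).powerset.filter (fun X => ne k p X = 1), X.card := by
    unfold S1
    rw [← sum_idx T k e p h1 h2 h3 h4 (fun m => m)]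
  have hs : sigma1 T = ((range (k + 1)).powerset.filter (fun X => ne k p X = 1)).card := by
    unfold sigma1
    have := sum_idx T k e p h1 h2 h3 h4 (fun _ => 1)
    simpa using this
  rw [hS, hs]
  exact this

end Pool.Agent.Q226.NI
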