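import Pool.Agent.Q226.NI.Bound
import Pool.Agent.Q226.NI.Order

set_option autoImplicit false

/-! The bound for trees different from `R_n` and the exact value for `R_n`. -/

namespace Pool.Agent.Q226.NI

open Finset
open Classical

variable {V : Type} [Fintype V]

/-- `G` is the tree `R_n`, with leaf `u` at distance two of the centre `w`. -/
structure IsR (G : SimpleGraph V) (u v w : V) : Prop where
  uv : u ≠ v
  uw : u ≠ w
  vw : v ≠ w
  adj : ∀ x y, G.Adj x y ↔ (x = u ∧ y = v) ∨ (x = v ∧ y = u) ∨ (x = v ∧ y = w) ∨ (x = w ∧ y = v) ∨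
    (x = w ∧ y ≠ u ∧ y ≠ v ∧ y ≠ w) ∨ (y = w ∧ x ≠ u ∧ x ≠ v ∧ x ≠ w)

theorem F_symm (G : SimpleGraph V) (u v : V) : F G u v = F G v u := by
  ext x
  rw [mem_F, mem_F]
  tauto

theorem core (T : SimpleGraph V) (hT : T.IsTree) (n : ℕ) (hn : 4 ≤ n) (hc : Fintype.card V = n)
    (u v w : V) (huv : T.Adj u v) (hvw : T.Adj v w) (huw : u ≠ w) (hR : ¬ IsR T u v w) :
    6 * is T (F T u v) + 11 * ic T (F T u v) ≤ 3 * n * ic T (F T u v) := by
  have : Nontrivial V := by
    rw [← Fintype.one_lt_card_iff_nontrivial]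
    omega
  obtain ⟨L, hL⟩ : ∃ L, L = (univ : Finset V) \ {u, v, w} := ⟨_, rfl⟩
  have hLc : L.card + 3 = n := by
    rw [hL, ← hc, ← Finset.card_univ]
    have h3 : ({u, v, w} : Finset V).card = 3 := by
      rw [Finset.card_eq_three]
      exact ⟨u, v, w, huv.ne, huw, hvw.ne, rfl⟩
    rw [← h3]
    exact Finset.card_sdiff_add_card_eq_card (Finset.subset_univ _)
  have hsub : F T u v ⊆ L := by
    intro x hx
    rw [mem_F] at hx
    rw [hL, Finset.mem_sdiff]
    refine ⟨Finset.mem_univ _, ?_⟩
    simp only [Finset.mem_insert, Finset.mem_singleton]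
    rintro (h | h | h)
    · exact hx.1 h
    · exact hx.2.1 h
    · apply hx.2.2.2
      rw [h]
      exact hvw.symm
  have hle := Finset.card_le_card hsub
  have hhalf := half T _ (F T u v) rfl
  by_cases h1 : (F T u v).card + 4 ≤ n
  · have : ((F T u v).card + 4) * ic T (F T u v) ≤ n * ic T (F T u v) := Nat.mul_le_mul_right _ h1
    nlinarith
  · have hce : (F T u v).card = L.card := by omega
    have hFL : F T u v = L := Finset.eq_of_subset_of_card_le hsub hce.ge
    by_cases hE : ∃ x ∈ F T u v, ∃ y ∈ F T u v, T.Adj x y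
    · have h3 := third T _ (F T u v) rfl hE
      have h5 : ((F T u v).card + 3) * ic T (F T u v) = n * ic T (F T u v) := by
        rw [hce, hLc]
      nlinarith
    · exfalso
      push Not at hE
      apply hR
      have hLm : ∀ x, x ≠ u → x ≠ v → x ≠ w → x ∈ F T u v := by
        intro x h1 h2 h3
        rw [hFL, hL, Finset.mem_sdiff]
        refine ⟨Finset.mem_univ _, ?_⟩
        simp only [Finset.mem_insert, Finset.mem_singleton]
        tauto
      have huw' : ¬ T.Adj u w := by
        intro h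
        have hcf := hT.2.cliqueFree (n := 3) (le_refl 3)
        apply hcf {u, v, w}
        rw [SimpleGraph.is3Clique_iff]
        exact ⟨u, v, w, huv, h, hvw, rfl⟩
      have hLw : ∀ x, x ≠ u → x ≠ v → x ≠ w → T.Adj x w := by
        intro x h1 h2 h3
        have hx := hLm x h1 h2 h3
        obtain ⟨y, hy⟩ := hT.1.preconnected.exists_adj_of_nontrivial x
        have hx' := (mem_F T).1 hx
        by_cases hyw : y = w
        · rw [← hyw]; exact hy
        · exfalso
          have hyu : y ≠ u := by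
            rintro rfl
            exact hx'.2.2.1 hy
          have hyv : y ≠ v := by
            rintro rfl
            exact hx'.2.2.2 hy
          exact hE x hx y (hLm y hyu hyv hyw) hy
      refine ⟨huv.ne, huw, hvw.ne, ?_⟩
      intro x y
      have hnu : ∀ x, x ≠ u → x ≠ v → x ≠ w → ¬ T.Adj x u ∧ ¬ T.Adj x v := fun x h1 h2 h3 =>
        ⟨((mem_F T).1 (hLm x h1 h2 h3)).2.2.1, ((mem_F T).1 (hLm x h1 h2 h3)).2.2.2⟩
      constructor
      · intro hxy
        by_cases hxu : x = u
        · subst hxu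
          by_cases hyv : y = v
          · left; exact ⟨rfl, hyv⟩
          · exfalso
            by_cases hyw : y = w
            · subst hyw; exact huw' hxy
            · exact (hnu y hxy.ne' hyv hyw).1 hxy.symm
        · by_cases hxv : x = v
          · subst hxv
            by_cases hyu : y = u
            · right; left; exact ⟨rfl, hyu⟩
            · by_cases hyw : y = w
              · right; right; left; exact ⟨rfl, hyw⟩
              · exact absurd hxy.symm (hnu y hyu hxy.ne' hyw).2
          · by_cases hxw : x = w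
            · subst hxw
              by_cases hyv : y = v
              · right; right; right; left; exact ⟨rfl, hyv⟩
              · by_cases hyu : y = u
                · subst hyu; exact absurd hxy.symm huw'
                · right; right; right; right; left
                  exact ⟨rfl, hyu, hyv, hxy.ne'⟩
            · by_cases hyw : y = w
              · right; right; right; right; right
                exact ⟨hyw, hxu, hxv, hxw⟩
              · exfalso
                have hyu : y ≠ u := by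
                  rintro rfl
                  exact (hnu x hxu hxv hxw).1 hxy
                have hyv : y ≠ v := by
                  rintro rfl
                  exact (hnu x hxu hxv hxw).2 hxy
                exact hE x (hLm x hxu hxv hxw) y (hLm y hyu hyv hyw) hxy
      · rintro (⟨rfl, rfl⟩ | ⟨rfl, rfl⟩ | ⟨rfl, rfl⟩ | ⟨rfl, rfl⟩ | ⟨rfl, h1, h2, h3⟩ |
          ⟨rfl, h1, h2, h3⟩)
        · exact huv
        · exact huv.symm
        · exact hvw
        · exact hvw.symm
        · exact (hLw y h1 h2 h3).symm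
        · exact hLw x h1 h2 h3

theorem dart_bound (T : SimpleGraph V) (hT : T.IsTree) (n : ℕ) (hn : 4 ≤ n)
    (hc : Fintype.card V = n) (hR : ¬ ∃ u v w, IsR T u v w) (u v : V) (huv : T.Adj u v) :
    6 * is T (F T u v) + 11 * ic T (F T u v) ≤ 3 * n * ic T (F T u v) := by
  obtain ⟨x, hx⟩ : ∃ x, x ∉ ({u, v} : Finset V) := by
    by_contra h
    push Not at h
    have h1 : (univ : Finset V) ⊆ {u, v} := fun x _ => h x
    have h2 := Finset.card_le_card h1
    have h3 : ({u, v} : Finset V).card ≤ 2 := Finset.card_le_two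
    rw [Finset.card_univ] at h2
    omega
  obtain ⟨W⟩ := hT.1.preconnected u x
  obtain ⟨d, -, h1, h2⟩ := W.exists_boundary_dart (({u, v} : Finset V) : Set V)
    (by simp) (by simpa using hx)
  have hadj := d.adj
  rw [Finset.mem_coe, Finset.mem_insert, Finset.mem_singleton] at h1 h2
  push Not at h2
  rcases h1 with h1 | h1
  · rw [F_symm]
    rw [h1] at hadj
    exact core T hT n hn hc v u d.snd huv.symm hadj h2.2.symm (fun h => hR ⟨_, _, _, h⟩)
  · rw [h1] at hadj
    exact core T hT n hn hc u v d.snd huv hadj h2.1.symm (fun h => hR ⟨_, _, _, h⟩)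

theorem bound (T : SimpleGraph V) (hT : T.IsTree) (n : ℕ) (hn : 4 ≤ n)
    (hc : Fintype.card V = n) (hR : ¬ ∃ u v w, IsR T u v w) :
    6 * S1 T ≤ (3 * n + 1) * sigma1 T := by
  have h : 6 * (2 * S1 T) ≤ (3 * n + 1) * (2 * sigma1 T) := by
    rw [two_S1, two_sigma1, Finset.mul_sum, Finset.mul_sum]
    apply Finset.sum_le_sum
    intro p hp
    have hp' : T.Adj p.1 p.2 := by simpa [D] using hp
    have := dart_bound T hT n hn hc hR p.1 p.2 hp'
    nlinarith
  nlinarith

theorem sum_D (G : SimpleGraph V) (u v w : V) (h : IsR G u v w) (g : V × V → ℕ) :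
    ∑ p ∈ D G, g p = g (u, v) + g (v, u) + g (v, w) + g (w, v)
      + ∑ x ∈ (univ : Finset V) \ {u, v, w}, (g (w, x) + g (x, w)) := by
  obtain ⟨huv, huw, hvw, hadj⟩ := h
  obtain ⟨L, hL⟩ : ∃ L, L = (univ : Finset V) \ {u, v, w} := ⟨_, rfl⟩
  have hLm : ∀ x, x ∈ L ↔ x ≠ u ∧ x ≠ v ∧ x ≠ w := by
    intro x
    rw [hL]
    simp
  rw [← hL, Finset.sum_add_distrib]
  have hD : D G = insert (u, v) (insert (v, u) (insert (v, w) (insert (w, v)
      (L.image (fun x => (w, x)) ∪ L.image (fun x => (x, w)))))) := by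
    ext ⟨x, y⟩
    simp only [D, Finset.mem_filter, Finset.mem_univ, true_and, hadj, Finset.mem_insert,
      Finset.mem_union, Finset.mem_image, Prod.mk.injEq, hLm]
    constructor
    · rintro (⟨rfl, rfl⟩ | ⟨rfl, rfl⟩ | ⟨rfl, rfl⟩ | ⟨rfl, rfl⟩ | ⟨rfl, h1, h2, h3⟩ |
          ⟨rfl, h1, h2, h3⟩)
      · tauto
      · tauto
      · tauto
      · tauto
      · right; right; right; right; left
        exact ⟨y, ⟨h1, h2, h3⟩, rfl, rfl⟩
      · right; right; right; right; right
        exact ⟨x, ⟨h1, h2, h3⟩, rfl, rfl⟩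
    · rintro (⟨rfl, rfl⟩ | ⟨rfl, rfl⟩ | ⟨rfl, rfl⟩ | ⟨rfl, rfl⟩ | ⟨z, ⟨h1, h2, h3⟩, rfl, rfl⟩ |
          ⟨z, ⟨h1, h2, h3⟩, rfl, rfl⟩)
      · tauto
      · tauto
      · tauto
      · tauto
      · tauto
      · tauto
  rw [hD]
  have huw' := huw.symm
  have hvw' := hvw.symm
  have huv' := huv.symm
  rw [Finset.sum_insert, Finset.sum_insert, Finset.sum_insert, Finset.sum_insert,
    Finset.sum_union, Finset.sum_image, Finset.sum_image]
  · ring
  · intro a _ b _ hab
    exact (Prod.mk.injEq _ _ _ _ ▸ hab).1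
  · intro a _ b _ hab
    exact (Prod.mk.injEq _ _ _ _ ▸ hab).2
  · rw [Finset.disjoint_left]
    rintro ⟨a, b⟩ h1 h2
    rw [Finset.mem_image] at h1 h2
    obtain ⟨c, hc, hc'⟩ := h1
    obtain ⟨d, hd, hd'⟩ := h2
    rw [hLm] at hc hd
    rw [Prod.mk.injEq] at hc' hd'
    exact hd.2.2 (by rw [hd'.1, hc'.1])
  all_goals
    simp only [Finset.mem_insert, Finset.mem_union, Finset.mem_image, Prod.mk.injEq, hLm]
    grind

theorem formula (G : SimpleGraph V) (u v w : V) (h : IsR G u v w) (n : ℕ) (hn : 4 ≤ n)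
    (hc : Fintype.card V = n) :
    sigma1 G + 5 = 2 ^ (n - 3) + 2 * n ∧ 2 * S1 G + 26 = (n + 1) * 2 ^ (n - 3) + 10 * n := by
  have hs := sum_D G u v w h (fun p => ic G (F G p.1 p.2))
  have hS := sum_D G u v w h (fun p => 2 * ic G (F G p.1 p.2) + is G (F G p.1 p.2))
  rw [← two_sigma1] at hs
  rw [← two_S1] at hS
  obtain ⟨huv, huw, hvw, hadj⟩ := h
  obtain ⟨L, hL⟩ : ∃ L, L = (univ : Finset V) \ {u, v, w} := ⟨_, rfl⟩
  rw [← hL] at hs hS
  have hLc : L.card + 3 = n := by
    rw [hL, ← hc, ← Finset.card_univ]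
    have h3 : ({u, v, w} : Finset V).card = 3 := by
      rw [Finset.card_eq_three]
      exact ⟨u, v, w, huv, huw, hvw, rfl⟩
    rw [← h3]
    exact Finset.card_sdiff_add_card_eq_card (Finset.subset_univ _)
  have hLm : ∀ x, x ∈ L ↔ x ≠ u ∧ x ≠ v ∧ x ≠ w := by
    intro x
    rw [hL]
    simp
  have hF1 : F G u v = L := by
    ext x
    rw [mem_F, hLm, hadj, hadj]
    have huw' := huw.symm
    have hvw' := hvw.symm
    have huv' := huv.symm
    grind
  have hF2 : F G v w = ∅ := by
    ext x
    rw [mem_F, hadj, hadj]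
    have huw' := huw.symm
    have hvw' := hvw.symm
    have huv' := huv.symm
    simp only [Finset.notMem_empty, iff_false]
    grind
  have hF3 : ∀ x ∈ L, F G w x = {u} := by
    intro y hy
    rw [hLm] at hy
    ext x
    rw [mem_F, hadj, hadj, Finset.mem_singleton]
    have huw' := huw.symm
    have hvw' := hvw.symm
    have huv' := huv.symm
    obtain ⟨h1, h2, h3⟩ := hy
    have h1' := h1.symm
    have h2' := h2.symm
    have h3' := h3.symm
    grind
  have hF1' : F G v u = L := by rw [F_symm, hF1]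
  have hF2' : F G w v = ∅ := by rw [F_symm, hF2]
  have hF3' : ∀ x ∈ L, F G x w = {u} := fun x hx => by rw [F_symm, hF3 x hx]
  have e1 := edgeless G L (by
    intro x hx y hy
    rw [hLm] at hx hy
    rw [hadj]
    grind)
  have e2 := edgeless G ∅ (by simp)
  have e3 := edgeless G {u} (by
    intro x hx y hy
    rw [Finset.mem_singleton] at hx hy
    rw [hx, hy]
    exact G.loopless.irrefl _)
  simp only [Finset.card_empty, Finset.card_singleton, pow_zero, pow_one, zero_mul] at e2 e3
  have e2' : is G (∅ : Finset V) = 0 := by omega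
  have e3' : is G ({u} : Finset V) = 1 := by omega
  simp only [hF1, hF1', hF2, hF2', e1.1, e2.1] at hs
  simp only [hF1, hF1', hF2, hF2', e1.1, e2.1, e2'] at hS
  have hs1 : ∑ x ∈ L, (ic G (F G w x) + ic G (F G x w)) = L.card * 4 := by
    rw [← smul_eq_mul, ← Finset.sum_const]
    apply Finset.sum_congr rfl
    intro x hx
    rw [hF3 x hx, hF3' x hx, e3.1]
  have hS1 : ∑ x ∈ L, (2 * ic G (F G w x) + is G (F G w x) +
      (2 * ic G (F G x w) + is G (F G x w))) = L.card * 10 := by
    rw [← smul_eq_mul, ← Finset.sum_const]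
    apply Finset.sum_congr rfl
    intro x hx
    rw [hF3 x hx, hF3' x hx, e3.1, e3']
  rw [hs1] at hs
  rw [hS1] at hS
  have hL3 : L.card = n - 3 := by omega
  have hp : (L.card) * 2 ^ L.card + 4 * 2 ^ L.card = (n + 1) * 2 ^ (n - 3) := by
    rw [← add_mul, hL3]
    congr 1
    omega
  rw [← hL3]
  rw [← hL3] at hp
  constructor
  · omega
  · have := e1.2
    omega

theorem isR_R (n : ℕ) (hn : 4 ≤ n) :
    IsR (R n) ⟨n - 1, by omega⟩ ⟨n - 2, by omega⟩ ⟨0, by omega⟩ := by
  refine ⟨?_, ?_, ?_, ?_⟩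
  · intro h
    have := Fin.mk.inj h
    omega
  · intro h
    have := Fin.mk.inj h
    omega
  · intro h
    have := Fin.mk.inj h
    omega
  · rintro ⟨x, hx⟩ ⟨y, hy⟩
    simp only [R, SimpleGraph.fromRel_adj, ne_eq, Fin.mk.injEq]
    omega

/-- **The main theorem**: `R_n` maximises `av_1` among the trees with `n ≥ 4` vertices. -/
theorem main (n : ℕ) (hn : 4 ≤ n) (T : SimpleGraph (Fin n)) (hT : T.IsTree) :
    av1 T ≤ av1 (R n) := by
  have hR := formula (R n) _ _ _ (isR_R n hn) n hn (Fintype.card_fin n)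
  obtain ⟨m, hm⟩ : ∃ m, m = 2 ^ (n - 3) := ⟨_, rfl⟩
  rw [← hm] at hR
  have hRpos : 0 < sigma1 (R n) := by
    have : 0 < m := by rw [hm]; positivity
    omega
  by_cases hE : ∃ u v w, IsR T u v w
  · obtain ⟨u, v, w, h⟩ := hE
    have hT' := formula T u v w h n hn (Fintype.card_fin n)
    rw [← hm] at hT'
    have h1 : sigma1 T = sigma1 (R n) := by omega
    have h2 : S1 T = S1 (R n) := by omega
    unfold av1
    rw [h1, h2]
  · have hb := bound T hT n hn (Fintype.card_fin n) hE
    rcases Nat.eq_zero_or_pos (sigma1 T) with h0 | hTpos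
    · unfold av1
      rw [h0]
      simp only [Nat.cast_zero, div_zero]
      positivity
    have hq : S1 T * sigma1 (R n) ≤ S1 (R n) * sigma1 T → av1 T ≤ av1 (R n) := by
      intro h
      unfold av1
      rw [div_le_div_iff₀ (by exact_mod_cast hTpos) (by exact_mod_cast hRpos)]
      exact_mod_cast h
    apply hq
    have hq2 : ∀ a b : ℕ, 0 < a → a * S1 T ≤ b * sigma1 T →
        b * sigma1 (R n) ≤ a * S1 (R n) → S1 T * sigma1 (R n) ≤ S1 (R n) * sigma1 T := by
      intro a b ha h1 h2
      have h3 : a * S1 T * sigma1 (R n) ≤ b * sigma1 T * sigma1 (R n) :=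
        Nat.mul_le_mul_right _ h1
      have h4 : b * sigma1 (R n) * sigma1 T ≤ a * S1 (R n) * sigma1 T :=
        Nat.mul_le_mul_right _ h2
      nlinarith
    have hcases : n = 4 ∨ n = 5 ∨ n = 6 ∨ n = 7 ∨ n = 8 ∨ n = 9 ∨ 10 ≤ n := by omega
    rcases hcases with rfl | rfl | rfl | rfl | rfl | rfl | h10
    · norm_num at hm
      exact hq2 6 (3 * 4 + 1) (by norm_num) hb (by omega)
    · norm_num at hm
      exact hq2 6 (3 * 5 + 1) (by norm_num) hb (by omega)
    · norm_num at hm
      exact hq2 1 3 (by norm_num)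
        (tree_brute 3 1 5 chk6 (Fin 6) T hT (Fintype.card_fin 6)) (by omega)
    · norm_num at hm
      exact hq2 25 86 (by norm_num)
        (tree_brute 86 25 6 chk7 (Fin 7) T hT (Fintype.card_fin 7)) (by omega)
    · norm_num at hm
      exact hq2 43 171 (by norm_num)
        (tree_brute 171 43 7 chk8 (Fin 8) T hT (Fintype.card_fin 8)) (by omega)
    · norm_num at hm
      exact hq2 7 32 (by norm_num)
        (tree_brute 32 7 8 chk9 (Fin 9) T hT (Fintype.card_fin 9)) (by omega)
    · refine hq2 6 (3 * n + 1) (by norm_num) hb ?_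
      have key : ∀ k : ℕ, 6 * (k + 10) * (k + 10) + 73 ≤ 2 * 2 ^ (k + 7) + 43 * (k + 10) := by
        intro k
        induction k with
        | zero => norm_num
        | succ k ih =>
          have : 2 ^ (k + 1 + 7) = 2 * 2 ^ (k + 7) := by ring
          rw [this]
          nlinarith
      obtain ⟨k, rfl⟩ : ∃ k, n = k + 10 := ⟨n - 10, by omega⟩
      have hk := key k
      have : m = 2 ^ (k + 7) := by rw [hm]; congr 1
      rw [← this] at hk
      obtain ⟨h1, h2⟩ := hR
      have h1' : sigma1 (R (k + 10)) = m + 2 * k + 15 := by omega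
      rw [h1']
      nlinarith

end Pool.Agent.Q226.NI
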